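import Mathlib

namespace Pool.Agent.Results.MP_d56d33_an.Sat

open MeasureTheory Set Real

/-- the interval `[t₀, T)` with `T ≤ ∞`. -/
def J (t₀ : ℝ) (T : EReal) : Set ℝ := {t | t₀ ≤ t ∧ (t : EReal) < T}

/-- solutions on `[t₀,T)` of the case `n = 1`, `m = 0`: `x' = -p₀ x - k φ(q₀ x) + f`. -/
def IsSol (p₀ q₀ : ℝ) (k φ f : ℝ → ℝ) (t₀ : ℝ) (T : EReal) (x : ℝ → ℝ) : Prop :=
  (∀ s ∈ J t₀ T, AbsolutelyContinuousOnInterval x t₀ s ∧
    IntervalIntegrable (fun t => φ (q₀ * x t)) volume t₀ s) ∧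
  ∀ᵐ t, t ∈ J t₀ T → HasDerivAt x (-p₀ * x t - k t * φ (q₀ * x t) + f t) t

def ExpStable (p₀ q₀ : ℝ) (k φ : ℝ → ℝ) : Prop :=
  ∃ ε₁ > 0, ∃ ε₂ > 0, ∀ t₀ ≥ 0, ∀ T x, IsSol p₀ q₀ k φ 0 t₀ T x →
    ∀ t ∈ J t₀ T, |x t| ≤ ε₂ * |x t₀| * exp (-ε₁ * (t - t₀))

def L2Stable (p₀ q₀ : ℝ) (k φ : ℝ → ℝ) : Prop :=
  ∀ η₁ ≥ 0, ∀ η₂ ≥ 0, ∃ η₃ : ℝ, ∀ t₀ ≥ 0, ∀ T x f, Measurable f → IsSol p₀ q₀ k φ f t₀ T x →
    |x t₀| < η₁ → ∫⁻ t in Ioi 0, ENNReal.ofReal (f t ^ 2) < ENNReal.ofReal η₂ →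
      ∀ s ∈ J t₀ T, ∫⁻ t in Ioc t₀ s, ENNReal.ofReal (x t ^ 2) ≤ ENNReal.ofReal η₃

noncomputable def ph (σ : ℝ) : ℝ := σ + max (-1) (min σ 1)

lemma key (y g M : ℝ) (h : |y| ≤ M) :
    2 * y * (-(-1) * y - 1 * ph (1 * y) + g) ≤ (1 + M) * g ^ 2 - y ^ 2 / (1 + M) := by
  have hM : 0 < 1 + M := by linarith [abs_nonneg y]
  have h1 : y ^ 2 / (1 + M) ≤ y * max (-1) (min y 1) := by
    rw [div_le_iff₀ hM]
    obtain ⟨a, b⟩ := abs_le.1 h
    rcases le_total y 1 with c | c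
    · rw [min_eq_left c]
      rcases le_total (-1) y with d | d
      · rw [max_eq_right d]; nlinarith [sq_nonneg y, abs_nonneg y]
      · rw [max_eq_left d]; nlinarith
    · rw [min_eq_right c, max_eq_right (by norm_num)]; nlinarith
  have h2 : 2 * y * g ≤ (1 + M) * g ^ 2 + y ^ 2 / (1 + M) := by
    rw [← sub_le_iff_le_add', le_div_iff₀ hM]
    nlinarith [sq_nonneg (y - (1 + M) * g)]
  simp only [ph, one_mul]
  linarith

theorem result : ph 0 = 0 ∧ (∀ σ, 1 * σ ^ 2 ≤ σ * ph σ ∧ σ * ph σ ≤ 2 * σ ^ 2) ∧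
    L2Stable (-1) 1 (fun _ => 1) ph ∧ ¬ ExpStable (-1) 1 (fun _ => 1) ph := by
  refine ⟨by simp [ph], fun σ => ?_, fun η₁ h₁ η₂ h₂ => ?_, ?_⟩
  · unfold ph
    rcases le_total σ 1 with c | c
    · rw [min_eq_left c]
      rcases le_total (-1) σ with d | d
      · rw [max_eq_right d]; constructor <;> nlinarith [sq_nonneg σ]
      · rw [max_eq_left d]; constructor <;> nlinarith
    · rw [min_eq_right c, max_eq_right (by norm_num)]; constructor <;> nlinarith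
  · refine ⟨(2 + η₁ + η₂) * (η₁ ^ 2 + (2 + η₁ + η₂) * η₂),
      fun t₀ ht₀ T x f hf hx h0 hf2 s hs => ?_⟩
    have hi : IntegrableOn (fun t => f t ^ 2) (Ioi 0) :=
      ⟨(hf.pow_const 2).aestronglyMeasurable, by
        rw [hasFiniteIntegral_iff_ofReal (ae_of_all _ fun t => sq_nonneg _)]
        exact hf2.trans ENNReal.ofReal_lt_top⟩
    rw [← ofReal_integral_eq_lintegral_ofReal hi (ae_of_all _ fun t => sq_nonneg _),
      ENNReal.ofReal_lt_ofReal_iff'] at hf2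
    have hc : ContinuousOn x (Icc t₀ s) := by
      simpa [uIcc_of_le hs.1] using (hx.1 s hs).1.continuousOn
    obtain ⟨r, hr, hmax⟩ := isCompact_Icc.exists_isMaxOn (nonempty_Icc.2 hs.1) hc.abs
    have hJ : ∀ t ∈ Icc t₀ s, t ∈ J t₀ T := fun t ht =>
      ⟨ht.1, lt_of_le_of_lt (EReal.coe_le_coe_iff.2 ht.2) hs.2⟩
    have hM : 0 < 1 + |x r| := by positivity
    have en : ∀ u ∈ Icc t₀ s, x u ^ 2 + (∫ t in t₀..u, x t ^ 2) / (1 + |x r|) ≤
        η₁ ^ 2 + (1 + |x r|) * η₂ := fun u hu => by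
      have a := (hx.1 u (hJ u hu)).1
      have i1 : IntervalIntegrable (fun t => f t ^ 2) volume t₀ u :=
        (intervalIntegrable_iff_integrableOn_Ioc_of_le hu.1).2
          (hi.mono_set fun t ht => lt_of_le_of_lt ht₀ ht.1)
      have i2 : IntervalIntegrable (fun t => x t ^ 2) volume t₀ u :=
        (a.continuousOn.pow 2).intervalIntegrable
      have e := (a.mul a).integral_deriv_eq_sub
      have l : ∫ t in t₀..u, deriv (x * x) t ≤
          ∫ t in t₀..u, ((1 + |x r|) * f t ^ 2 - x t ^ 2 / (1 + |x r|)) := by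
        refine intervalIntegral.integral_mono_ae_restrict hu.1 (a.mul a).intervalIntegrable_deriv
          ((i1.const_mul _).sub (i2.div_const _)) ?_
        filter_upwards [ae_restrict_of_ae hx.2, ae_restrict_mem measurableSet_Icc] with t h ht
        have ht' : t ∈ Icc t₀ s := ⟨ht.1, ht.2.trans hu.2⟩
        rw [((h (hJ t ht')).mul (h (hJ t ht'))).deriv]
        refine le_trans (le_of_eq ?_) (key (x t) (f t) _ (hmax ht'))
        ring
      rw [e, intervalIntegral.integral_sub (i1.const_mul _) (i2.div_const _),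
        intervalIntegral.integral_const_mul, intervalIntegral.integral_div] at l
      have b : ∫ t in t₀..u, f t ^ 2 ≤ η₂ := by
        rw [intervalIntegral.integral_of_le hu.1]
        exact (setIntegral_mono_set hi (ae_of_all _ fun t => sq_nonneg _)
          (ae_of_all _ fun t ht => lt_of_le_of_lt ht₀ ht.1)).trans hf2.1.le
      have c : x t₀ ^ 2 ≤ η₁ ^ 2 := sq_le_sq.2 (h0.le.trans (le_abs_self _))
      simp only [Pi.mul_apply] at l
      nlinarith [mul_le_mul_of_nonneg_left b hM.le]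
    have b1 : |x r| ≤ 1 + η₁ + η₂ := by
      have := en r hr
      have p : 0 ≤ (∫ t in t₀..r, x t ^ 2) / (1 + |x r|) :=
        div_nonneg (intervalIntegral.integral_nonneg hr.1 fun _ _ => sq_nonneg _) hM.le
      rw [← sq_abs] at this
      by_contra hh
      nlinarith
    have b2 := en s ⟨hs.1, le_rfl⟩
    have i2 : IntegrableOn (fun t => x t ^ 2) (Ioc t₀ s) :=
      ((hc.pow 2).integrableOn_Icc).mono_set Ioc_subset_Icc_self
    rw [← ofReal_integral_eq_lintegral_ofReal i2 (ae_of_all _ fun t => sq_nonneg _),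
      ← intervalIntegral.integral_of_le hs.1]
    refine ENNReal.ofReal_le_ofReal ?_
    have b3 : (∫ t in t₀..s, x t ^ 2) ≤ (η₁ ^ 2 + (1 + |x r|) * η₂) * (1 + |x r|) :=
      (div_le_iff₀ hM).1 (by nlinarith [sq_nonneg (x s)])
    rw [mul_comm (2 + η₁ + η₂)]
    have b4 : 1 + |x r| ≤ 2 + η₁ + η₂ := by linarith
    exact b3.trans (mul_le_mul (by nlinarith) b4 hM.le (by positivity))
  · rintro ⟨ε₁, h₁, ε₂, h₂, h⟩
    obtain ⟨R, hR, hR'⟩ : ∃ R : ℝ, 2 < R ∧ 2 * ε₂ < 1 + ε₁ * R :=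
      ⟨3 + 2 * ε₂ / ε₁, by have := div_pos h₂ h₁; rw [mul_div_assoc]; linarith, by
        rw [mul_add, mul_div_cancel₀ _ h₁.ne']; linarith⟩
    have := h 0 le_rfl (R + 1 : ℝ) (fun t => 2 * R - t) ⟨fun s _ => ⟨?_, ?_⟩, ae_of_all _ ?_⟩ R
      ⟨by linarith, EReal.coe_lt_coe_iff.2 (by linarith)⟩
    · rw [abs_of_pos (by linarith), abs_of_pos (by linarith), sub_zero, sub_zero, neg_mul, exp_neg,
        ← div_eq_mul_inv, le_div_iff₀ (exp_pos _)] at this
      nlinarith [add_one_le_exp (ε₁ * R)]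
    · exact ContDiffOn.absolutelyContinuousOnInterval (by fun_prop)
    · exact Continuous.intervalIntegrable (by unfold ph; fun_prop) _ _
    · intro t ht
      have h3 : t < R + 1 := EReal.coe_lt_coe_iff.1 ht.2
      refine ((hasDerivAt_id t).const_sub _).congr_deriv ?_
      simp only [ph, one_mul, Pi.zero_apply]
      rw [min_eq_right (by linarith), max_eq_right (by norm_num)]
      ring

end Pool.Agent.Results.MP_d56d33_an.Sat
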